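import Pool.Agent.Lib_MP_008adc_co.DetA

/-!
# Sign matrices of order `q₁ q₂`, for odd prime powers `q₁`, `q₂`

`M = Q₁ ⊗ Q₂ + 1 ⊗ J + J ⊗ 1 - 1`, where `Q` is the matrix of the quadratic character of a finite field.
-/

set_option autoImplicit false

namespace HadPP

open Matrix Kronecker Finset

variable {F : Type} [Field F] [Fintype F] [DecidableEq F]

/-- the quadratic character with real values -/
noncomputable def X (a : F) : ℝ := (quadraticChar F a : ℝ)

/-- the Jacobsthal matrix -/
noncomputable def Q (F : Type) [Field F] [Fintype F] [DecidableEq F] : Matrix F F ℝ :=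
  Matrix.of fun x y => X (x - y)

/-- the all ones matrix -/
def J (α : Type) : Matrix α α ℝ := Matrix.of fun _ _ => 1

theorem X_mul (a b : F) : X (a * b) = X a * X b := by
  unfold X
  rw [map_mul, Int.cast_mul]

theorem X_zero : X (0 : F) = 0 := by
  simp [X]

theorem X_sq (a : F) (ha : a ≠ 0) : X a * X a = 1 := by
  have h := quadraticChar_sq_one ha
  unfold X
  rw [← Int.cast_mul, ← sq, h, Int.cast_one]

theorem X_cases (a : F) (ha : a ≠ 0) : X a = 1 ∨ X a = -1 := by
  have h := X_sq a ha
  exact mul_self_eq_one_iff.1 h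

theorem sum_X (hF : ringChar F ≠ 2) : ∑ a : F, X a = 0 := by
  have h := quadraticChar_sum_zero hF
  unfold X
  exact_mod_cast congrArg (Int.cast : ℤ → ℝ) h

theorem sum_X_sub (hF : ringChar F ≠ 2) (c : F) : ∑ a : F, X (a - c) = 0 := by
  rw [← sum_X hF]
  exact Fintype.sum_equiv (Equiv.subRight c) _ _ fun _ => rfl

theorem sum_X_sub' (hF : ringChar F ≠ 2) (c : F) : ∑ a : F, X (c - a) = 0 := by
  rw [← sum_X hF]
  exact Fintype.sum_equiv (Equiv.subLeft c) _ _ fun _ => rfl

theorem jac (hF : ringChar F ≠ 2) : ∑ t : F, X t * X (1 - t) = - X (-1 : F) := by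
  have h := jacobiSum_nontrivial_inv (F := F) (χ := quadraticChar F) (quadraticChar_ne_one hF)
  have h2 : (quadraticChar F)⁻¹ = quadraticChar F := (quadraticChar_isQuadratic F).inv
  rw [h2] at h
  unfold jacobiSum at h
  unfold X
  exact_mod_cast congrArg (Int.cast : ℤ → ℝ) h

theorem Q_sq (hF : ringChar F ≠ 2) :
    Q F * Q F = X (-1 : F) • ((Fintype.card F : ℝ) • (1 : Matrix F F ℝ) - J F) := by
  ext x z
  rw [Matrix.mul_apply]
  simp only [Q, J, Matrix.of_apply, Matrix.smul_apply, Matrix.sub_apply, smul_eq_mul]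
  by_cases hxz : x = z
  · subst hxz
    rw [Matrix.one_apply_eq]
    have h1 : ∀ y : F, X (x - y) * X (y - x) = X (-1 : F) * (if y = x then 0 else 1) := by
      intro y
      by_cases hy : y = x
      · subst hy
        simp [X_zero]
      · have hy' : y - x ≠ 0 := sub_ne_zero.2 hy
        rw [if_neg hy, show x - y = (-1) * (y - x) by ring, X_mul, mul_assoc, X_sq _ hy']
    rw [Finset.sum_congr rfl fun y _ => h1 y, ← Finset.mul_sum]
    congr 1
    rw [Finset.sum_ite, Finset.sum_const_zero, Finset.sum_const, zero_add, nsmul_eq_mul, mul_one,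
      Finset.filter_not, Finset.filter_eq' , if_pos (Finset.mem_univ x), ← Finset.erase_eq,
      Finset.card_erase_of_mem (Finset.mem_univ x), Finset.card_univ,
      Nat.cast_sub (Fintype.card_pos_iff.2 ⟨x⟩)]
    simp
  · rw [Matrix.one_apply_ne hxz]
    have hd : x - z ≠ 0 := sub_ne_zero.2 hxz
    have h1 : ∑ y : F, X (x - y) * X (y - z) = ∑ t : F, X t * X (1 - t) := by
      symm
      refine Fintype.sum_equiv ((Equiv.mulLeft₀ (x - z) hd).trans (Equiv.addRight z)) _ _ fun t => ?_
      show X t * X (1 - t) = X (x - ((x - z) * t + z)) * X ((x - z) * t + z - z)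
      rw [show x - ((x - z) * t + z) = (x - z) * (1 - t) by ring,
        show (x - z) * t + z - z = (x - z) * t by ring, X_mul, X_mul]
      have := X_sq _ hd
      linear_combination (-(X t * X (1 - t))) * this
    rw [h1, jac hF]
    ring

theorem J_mul_Q (hF : ringChar F ≠ 2) : J F * Q F = 0 := by
  ext x z
  rw [Matrix.mul_apply]
  simp only [Q, J, Matrix.of_apply, one_mul, Matrix.zero_apply]
  exact sum_X_sub hF z

theorem Q_mul_J (hF : ringChar F ≠ 2) : Q F * J F = 0 := by
  ext x z
  rw [Matrix.mul_apply]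
  simp only [Q, J, Matrix.of_apply, mul_one, Matrix.zero_apply]
  exact sum_X_sub' hF x

theorem J_mul_J (α : Type) [Fintype α] : J α * J α = (Fintype.card α : ℝ) • J α := by
  ext x z
  rw [Matrix.mul_apply]
  simp [J]

theorem det_one_add_J (α : Type) [Fintype α] [DecidableEq α] (s : ℝ) :
    (1 + s • J α).det = 1 + s * Fintype.card α := by
  have h : s • J α = Matrix.replicateCol Unit (fun _ : α => s) * Matrix.replicateRow Unit (fun _ : α => (1 : ℝ)) := by
    ext i j
    simp [J, Matrix.mul_apply]
  rw [h, Matrix.det_one_add_replicateCol_mul_replicateRow]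
  simp [dotProduct, mul_comm]

end HadPP
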