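import Pool.Agent.Lib_MP_008adc_pp.Core

/-!
# The determinant of `M = Q₁ ⊗ Q₂ + 1 ⊗ J + J ⊗ 1 - 1`
-/

set_option autoImplicit false

namespace HadPP

open Matrix Kronecker Finset

variable (F G : Type) [Field F] [Fintype F] [DecidableEq F] [Field G] [Fintype G] [DecidableEq G]

/-- `1 ⊗ J` -/
noncomputable def A1 : Matrix (F × G) (F × G) ℝ := (1 : Matrix F F ℝ) ⊗ₖ J G

/-- `J ⊗ 1` -/
noncomputable def A2 : Matrix (F × G) (F × G) ℝ := J F ⊗ₖ (1 : Matrix G G ℝ)

/-- `J ⊗ J` -/
noncomputable def A3 : Matrix (F × G) (F × G) ℝ := J F ⊗ₖ J G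

/-- `Q₁ ⊗ Q₂` -/
noncomputable def W : Matrix (F × G) (F × G) ℝ := Q F ⊗ₖ Q G

/-- the sign matrix -/
noncomputable def M : Matrix (F × G) (F × G) ℝ := W F G + (A1 F G + A2 F G - 1)

theorem M_sign (i j : F × G) : M F G i j = 1 ∨ M F G i j = -1 := by
  obtain ⟨x, y⟩ := i
  obtain ⟨x', y'⟩ := j
  by_cases hx : x = x'
  · left
    subst hx
    by_cases hy : y = y'
    · subst hy
      simp [M, W, A1, A2, J, Q, X_zero, Matrix.kroneckerMap_apply]
    · have : ((x, y) : F × G) ≠ (x, y') := fun h => hy (congrArg Prod.snd h)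
      simp [M, W, A1, A2, J, Q, X_zero, Matrix.kroneckerMap_apply, Matrix.one_apply_ne hy,
        Matrix.one_apply_ne this]
  · have h1 : ((x, y) : F × G) ≠ (x', y') := fun h => hx (congrArg Prod.fst h)
    by_cases hy : y = y'
    · left
      subst hy
      simp [M, W, A1, A2, J, Q, X_zero, Matrix.kroneckerMap_apply, Matrix.one_apply_ne hx,
        Matrix.one_apply_ne h1]
    · have h2 : M F G (x, y) (x', y') = X (x - x') * X (y - y') := by
        simp [M, W, A1, A2, J, Q, Matrix.kroneckerMap_apply, Matrix.one_apply_ne hx,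
          Matrix.one_apply_ne hy, Matrix.one_apply_ne h1]
      rw [h2]
      rcases X_cases (x - x') (sub_ne_zero.2 hx) with h3 | h3 <;>
        rcases X_cases (y - y') (sub_ne_zero.2 hy) with h4 | h4 <;> simp [h3, h4]

theorem A1_sq : A1 F G * A1 F G = (Fintype.card G : ℝ) • A1 F G := by
  unfold A1
  rw [← Matrix.mul_kronecker_mul, J_mul_J, Matrix.one_mul, Matrix.kronecker_smul]

theorem A2_sq : A2 F G * A2 F G = (Fintype.card F : ℝ) • A2 F G := by
  unfold A2
  rw [← Matrix.mul_kronecker_mul, J_mul_J, Matrix.one_mul, Matrix.smul_kronecker]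

theorem A1_A2 : A1 F G * A2 F G = A3 F G := by
  unfold A1 A2 A3
  rw [← Matrix.mul_kronecker_mul, Matrix.one_mul, Matrix.mul_one]

theorem A2_A1 : A2 F G * A1 F G = A3 F G := by
  unfold A1 A2 A3
  rw [← Matrix.mul_kronecker_mul, Matrix.one_mul, Matrix.mul_one]

theorem A1_A3 : A1 F G * A3 F G = (Fintype.card G : ℝ) • A3 F G := by
  unfold A1 A3
  rw [← Matrix.mul_kronecker_mul, J_mul_J, Matrix.one_mul, Matrix.kronecker_smul]

theorem A2_A3 : A2 F G * A3 F G = (Fintype.card F : ℝ) • A3 F G := by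
  unfold A2 A3
  rw [← Matrix.mul_kronecker_mul, J_mul_J, Matrix.one_mul, Matrix.smul_kronecker]

theorem A3_eq : A3 F G = J (F × G) := by
  ext i j
  simp [A3, J, Matrix.kroneckerMap_apply]

variable {F G}

theorem A1_W (hG : ringChar G ≠ 2) : A1 F G * W F G = 0 := by
  unfold A1 W
  rw [← Matrix.mul_kronecker_mul, J_mul_Q hG, Matrix.kronecker_zero]

theorem W_A1 (hG : ringChar G ≠ 2) : W F G * A1 F G = 0 := by
  unfold A1 W
  rw [← Matrix.mul_kronecker_mul, Q_mul_J hG, Matrix.kronecker_zero]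

theorem A2_W (hF : ringChar F ≠ 2) : A2 F G * W F G = 0 := by
  unfold A2 W
  rw [← Matrix.mul_kronecker_mul, J_mul_Q hF, Matrix.zero_kronecker]

theorem W_A2 (hF : ringChar F ≠ 2) : W F G * A2 F G = 0 := by
  unfold A2 W
  rw [← Matrix.mul_kronecker_mul, Q_mul_J hF, Matrix.zero_kronecker]

theorem W_sq (hF : ringChar F ≠ 2) (hG : ringChar G ≠ 2) :
    W F G * W F G = (X (-1 : F) * X (-1 : G)) • (((Fintype.card F : ℝ) * Fintype.card G) • (1 : Matrix (F × G) (F × G) ℝ)
      - (Fintype.card F : ℝ) • A1 F G - (Fintype.card G : ℝ) • A2 F G + A3 F G) := by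
  have h1 : (1 : Matrix (F × G) (F × G) ℝ) = (1 : Matrix F F ℝ) ⊗ₖ (1 : Matrix G G ℝ) :=
    Matrix.one_kronecker_one.symm
  unfold W
  rw [← Matrix.mul_kronecker_mul, Q_sq hF, Q_sq hG, h1]
  unfold A1 A2 A3
  ext ⟨a, b⟩ ⟨c, d⟩
  simp only [Matrix.kroneckerMap_apply, Matrix.smul_apply, Matrix.sub_apply, Matrix.add_apply,
    smul_eq_mul]
  ring

theorem mul_eq (hF : ringChar F ≠ 2) (hG : ringChar G ≠ 2) :
    M F G * (-W F G + (A1 F G + A2 F G - 1)) =
      (1 - X (-1 : F) * X (-1 : G) * ((Fintype.card F : ℝ) * Fintype.card G)) • (1 : Matrix (F × G) (F × G) ℝ)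
      + ((Fintype.card G : ℝ) - 2 + X (-1 : F) * X (-1 : G) * Fintype.card F) • A1 F G
      + ((Fintype.card F : ℝ) - 2 + X (-1 : F) * X (-1 : G) * Fintype.card G) • A2 F G
      + (2 - X (-1 : F) * X (-1 : G)) • A3 F G := by
  have h := W_sq hF hG
  unfold M
  have e : (W F G + (A1 F G + A2 F G - 1)) * (-W F G + (A1 F G + A2 F G - 1)) =
      -(W F G * W F G) + W F G * A1 F G + W F G * A2 F G - W F G - A1 F G * W F G - A2 F G * W F G
        + W F G + (A1 F G * A1 F G + A1 F G * A2 F G + A2 F G * A1 F G + A2 F G * A2 F G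
        - A1 F G - A1 F G - A2 F G - A2 F G + 1) := by
    noncomm_ring
  rw [e, h, W_A1 hG, W_A2 hF, A1_W hG, A2_W hF, A1_sq, A2_sq, A1_A2, A2_A1]
  module

/-- `M` and `-W + B` are the same up to a permutation of the rows and columns. -/
theorem det_eq (hF : ringChar F ≠ 2) : (-W F G + (A1 F G + A2 F G - 1)).det = (M F G).det := by
  obtain ⟨ν, hν⟩ := quadraticChar_exists_neg_one hF
  have hν0 : ν ≠ 0 := by
    rintro rfl
    simp at hν
  have hX : X ν = -1 := by
    unfold X
    rw [hν]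
    norm_num
  let e : F × G ≃ F × G := Equiv.prodCongr (Equiv.mulLeft₀ ν hν0) (Equiv.refl G)
  have h : (M F G).submatrix e e = -W F G + (A1 F G + A2 F G - 1) := by
    ext ⟨x, y⟩ ⟨x', y'⟩
    have h1 : X (ν * x - ν * x') = - X (x - x') := by
      rw [← mul_sub, X_mul, hX]
      ring
    have h2 : (1 : Matrix F F ℝ) (ν * x) (ν * x') = (1 : Matrix F F ℝ) x x' := by
      simp only [Matrix.one_apply]
      congr 1
      exact propext (mul_right_inj' hν0)
    have h3 : (1 : Matrix (F × G) (F × G) ℝ) (ν * x, y) (ν * x', y') =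
        (1 : Matrix (F × G) (F × G) ℝ) (x, y) (x', y') := by
      simp only [Matrix.one_apply, Prod.mk.injEq]
      congr 1
      rw [mul_right_inj' hν0]
    show M F G (ν * x, y) (ν * x', y') = _
    simp only [M, W, A1, A2, J, Q, Matrix.kroneckerMap_apply, Matrix.add_apply, Matrix.sub_apply,
      Matrix.neg_apply, Matrix.of_apply, h1, h2, h3]
    ring
  rw [← h, Matrix.det_submatrix_equiv_self]

theorem det_combo (a b c d : ℝ) (ha : a ≠ 0) (hb : a + b * Fintype.card G ≠ 0)
    (hc : a + c * Fintype.card F ≠ 0) :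
    (a • (1 : Matrix (F × G) (F × G) ℝ) + b • A1 F G + c • A2 F G + d • A3 F G).det =
      a ^ (Fintype.card F * Fintype.card G) * (1 + b / a * Fintype.card G) ^ Fintype.card F *
        (1 + c / a * Fintype.card F) ^ Fintype.card G *
        (1 + (d / a - b / a * (c / a)) / ((1 + b / a * Fintype.card G) * (1 + c / a * Fintype.card F)) *
          (Fintype.card F * Fintype.card G)) := by
  set s : ℝ := b / a with hs
  set u : ℝ := c / a with hu
  set w : ℝ := (d / a - s * u) / ((1 + s * Fintype.card G) * (1 + u * Fintype.card F)) with hw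
  have h1 : (1 + s * Fintype.card G) ≠ 0 := by
    intro h
    apply hb
    rw [hs] at h
    field_simp at h
    linarith
  have h2 : (1 + u * Fintype.card F) ≠ 0 := by
    intro h
    apply hc
    rw [hu] at h
    field_simp at h
    linarith
  have hb' : b = a * s := by rw [hs]; field_simp
  have hc' : c = a * u := by rw [hu]; field_simp
  have hd' : d = a * (s * u + w * ((1 + s * Fintype.card G) * (1 + u * Fintype.card F))) := by
    rw [hw, div_mul_cancel₀ _ (mul_ne_zero h1 h2)]
    field_simp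
    ring
  have e : a • (1 : Matrix (F × G) (F × G) ℝ) + b • A1 F G + c • A2 F G + d • A3 F G =
      a • ((1 + s • A1 F G) * (1 + u • A2 F G) * (1 + w • A3 F G)) := by
    have e1 : (1 + s • A1 F G) * (1 + u • A2 F G) * (1 + w • A3 F G) =
        1 + s • A1 F G + u • A2 F G + (s * u) • A3 F G + w • A3 F G +
          (s * w * Fintype.card G) • A3 F G + (u * w * Fintype.card F) • A3 F G +
          (s * u * w * (Fintype.card G * Fintype.card F)) • A3 F G := by
      have k1 : A1 F G * A2 F G * A3 F G = ((Fintype.card G : ℝ) * Fintype.card F) • A3 F G := by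
        rw [Matrix.mul_assoc, A2_A3, Matrix.mul_smul, A1_A3, smul_smul, mul_comm]
      simp only [Matrix.add_mul, Matrix.mul_add, Matrix.one_mul, Matrix.mul_one, Matrix.smul_mul,
        Matrix.mul_smul, A1_A2, A1_A3, A2_A3, smul_smul, k1]
      rw [show A3 F G * A3 F G = ((Fintype.card G : ℝ) * Fintype.card F) • A3 F G from by
        rw [← k1, A1_A2]]
      module
    rw [e1, hb', hc', hd']
    module
  have d1 : (1 + s • A1 F G).det = (1 + s * Fintype.card G) ^ Fintype.card F := by
    have : 1 + s • A1 F G = (1 : Matrix F F ℝ) ⊗ₖ (1 + s • J G) := by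
      rw [Matrix.kronecker_add, Matrix.one_kronecker_one, Matrix.kronecker_smul]
      rfl
    rw [this, Matrix.det_kronecker, Matrix.det_one, one_pow, one_mul, det_one_add_J]
  have d2 : (1 + u • A2 F G).det = (1 + u * Fintype.card F) ^ Fintype.card G := by
    have : 1 + u • A2 F G = (1 + u • J F) ⊗ₖ (1 : Matrix G G ℝ) := by
      rw [Matrix.add_kronecker, Matrix.one_kronecker_one, Matrix.smul_kronecker]
      rfl
    rw [this, Matrix.det_kronecker, Matrix.det_one, one_pow, mul_one, det_one_add_J]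
  have d3 : (1 + w • A3 F G).det = 1 + w * (Fintype.card F * Fintype.card G) := by
    rw [A3_eq, det_one_add_J, Fintype.card_prod, Nat.cast_mul]
  rw [e, Matrix.det_smul, Matrix.det_mul, Matrix.det_mul, d1, d2, d3, Fintype.card_prod]
  ring

end HadPP
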