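import Mathlib

set_option autoImplicit false

namespace Pool.Agent.Det32

open Matrix

/-- `det (p I + q J)` -/
theorem det_two {n : Type*} [Fintype n] [DecidableEq n] [Nonempty n] (p q : ℝ) (hp : p ≠ 0) :
    (Matrix.of fun i j : n => (if i = j then p else 0) + q).det
      = p ^ (Fintype.card n - 1) * (p + Fintype.card n * q) := by
  have h1 : (Matrix.of fun i j : n => (if i = j then p else 0) + q)
      = p • ((1 : Matrix n n ℝ) + (Matrix.of fun (_ : n) (_ : Unit) => (1:ℝ)) *
          (Matrix.of fun (_ : Unit) (_ : n) => q / p)) := by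
    ext i j
    simp only [Matrix.of_apply, Matrix.smul_apply, Matrix.add_apply, Matrix.mul_apply,
      Matrix.one_apply, smul_eq_mul, Finset.univ_unique, Finset.sum_singleton, one_mul]
    rw [mul_add, mul_div_cancel₀ _ hp]
    split_ifs <;> simp
  have h2 : ((1 : Matrix Unit Unit ℝ) + (Matrix.of fun (_ : Unit) (_ : n) => q / p) *
      (Matrix.of fun (_ : n) (_ : Unit) => (1:ℝ))).det = 1 + Fintype.card n * (q / p) := by
    rw [Matrix.det_unique]
    simp [Matrix.mul_apply]
  rw [h1, Matrix.det_smul, Matrix.det_one_add_mul_comm, h2]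
  obtain ⟨k, hk⟩ : ∃ k, Fintype.card n = k + 1 :=
    ⟨Fintype.card n - 1, by have := Fintype.card_pos (α := n); omega⟩
  rw [hk, Nat.add_sub_cancel, pow_succ]
  field_simp

/-- `det (a I + b I ⊗ J + c J ⊗ I + d J ⊗ J)` -/
theorem det_four {m n : Type*} [Fintype m] [DecidableEq m] [Fintype n] [DecidableEq n]
    [Nonempty m] [Nonempty n] (a b c d : ℝ) (ha : a ≠ 0)
    (hb : a + Fintype.card n * b ≠ 0) (hc : a + Fintype.card m * c ≠ 0) :
    (Matrix.of fun x y : m × n => (if x = y then a else 0) + (if x.1 = y.1 then b else 0) +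
        (if x.2 = y.2 then c else 0) + d).det
      = a ^ ((Fintype.card m - 1) * (Fintype.card n - 1)) *
        (a + Fintype.card n * b) ^ (Fintype.card m - 1) *
        (a + Fintype.card m * c) ^ (Fintype.card n - 1) *
        (a + Fintype.card n * b + Fintype.card m * c + Fintype.card m * Fintype.card n * d) := by
  set A : Matrix n n ℝ := Matrix.of fun i j : n => (if i = j then a else 0) + b with hAdef
  set C : Matrix n n ℝ := Matrix.of fun i j : n => (if i = j then c else 0) + d with hCdef
  have hAdet : A.det = a ^ (Fintype.card n - 1) * (a + Fintype.card n * b) := det_two a b ha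
  have hA0 : A.det ≠ 0 := by
    rw [hAdet]; exact mul_ne_zero (pow_ne_zero _ ha) hb
  have hAu : IsUnit A.det := isUnit_iff_ne_zero.2 hA0
  set X : Matrix n n ℝ := A⁻¹ * C with hX
  have hAX : A * X = C := by
    rw [hX, ← Matrix.mul_assoc, Matrix.mul_nonsing_inv A hAu, Matrix.one_mul]
  set U : Matrix (m × n) n ℝ := Matrix.of fun x k => if x.2 = k then (1:ℝ) else 0 with hU
  set V : Matrix n (m × n) ℝ := Matrix.of fun k y => X k y.2 with hV
  have hM : (Matrix.of fun x y : m × n => (if x = y then a else 0) + (if x.1 = y.1 then b else 0) +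
        (if x.2 = y.2 then c else 0) + d)
      = (Matrix.kroneckerMap (· * ·) (1 : Matrix m m ℝ) A) * ((1 : Matrix (m × n) (m × n) ℝ) + U * V) := by
    rw [Matrix.mul_add, Matrix.mul_one]
    have h3 : (Matrix.kroneckerMap (· * ·) (1 : Matrix m m ℝ) A) * (U * V)
        = Matrix.of fun x y : m × n => C x.2 y.2 := by
      ext x y
      have h4 : (U * V) = Matrix.of fun x y : m × n => X x.2 y.2 := by
        ext x y
        simp [hU, hV, Matrix.mul_apply]
      rw [h4, Matrix.mul_apply, Fintype.sum_prod_type]
      simp only [Matrix.kroneckerMap_apply, Matrix.one_apply, Matrix.of_apply]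
      rw [Finset.sum_eq_single x.1]
      · simp only [if_true, one_mul]
        rw [← Matrix.mul_apply, hAX]
      · intro z _ hz
        simp [Ne.symm hz]
      · intro h; exact absurd (Finset.mem_univ _) h
    rw [h3]
    ext x y
    simp only [Matrix.add_apply, Matrix.kroneckerMap_apply, Matrix.one_apply, Matrix.of_apply,
      hAdef, hCdef]
    by_cases h1 : x.1 = y.1 <;> by_cases h2 : x.2 = y.2 <;>
      (simp [Prod.ext_iff, h1, h2]; try ring)
  have hVU : V * U = (Fintype.card m : ℝ) • X := by
    ext k l
    simp only [hU, hV, Matrix.mul_apply, Matrix.of_apply, Fintype.sum_prod_type,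
      Matrix.smul_apply, smul_eq_mul]
    simp
  have hdet1 : (Matrix.kroneckerMap (· * ·) (1 : Matrix m m ℝ) A).det = A.det ^ Fintype.card m := by
    have := Matrix.det_kronecker (1 : Matrix m m ℝ) A
    simpa using this
  have hsum : A + (Fintype.card m : ℝ) • C
      = Matrix.of fun i j : n => (if i = j then a + Fintype.card m * c else 0) +
          (b + Fintype.card m * d) := by
    ext i j
    simp only [hAdef, hCdef, Matrix.add_apply, Matrix.smul_apply, Matrix.of_apply, smul_eq_mul]
    split_ifs <;> ring
  have hdet2 : A.det * ((1 : Matrix n n ℝ) + (Fintype.card m : ℝ) • X).det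
      = (a + Fintype.card m * c) ^ (Fintype.card n - 1) *
        (a + Fintype.card m * c + Fintype.card n * (b + Fintype.card m * d)) := by
    rw [← Matrix.det_mul, Matrix.mul_add, Matrix.mul_one, Matrix.mul_smul, hAX, hsum,
      det_two _ _ hc]
  rw [hM, Matrix.det_mul, Matrix.det_one_add_mul_comm, hVU, hdet1]
  obtain ⟨k, hk⟩ : ∃ k, Fintype.card m = k + 1 :=
    ⟨Fintype.card m - 1, by have := Fintype.card_pos (α := m); omega⟩
  have h5 : A.det ^ Fintype.card m * ((1 : Matrix n n ℝ) + (Fintype.card m : ℝ) • X).det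
      = A.det ^ (Fintype.card m - 1) *
        (A.det * ((1 : Matrix n n ℝ) + (Fintype.card m : ℝ) • X).det) := by
    rw [← mul_assoc, ← pow_succ]
    congr 2
    omega
  rw [h5, hdet2, hAdet, mul_pow, ← pow_mul]
  rw [Nat.mul_comm (Fintype.card n - 1) (Fintype.card m - 1)]
  ring

end Pool.Agent.Det32
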