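import Pool.Agent.Lib_MP_008adc_pp.Fin
import Pool.Agent.Lib_MP_008adc_li.Tensor
import Pool.Agent.Lib_MP_008adc_oct.DetK

/-!
# The exact determinant, multiples and neighbours
-/

set_option autoImplicit false

namespace HadPP

open Matrix Finset

variable {F G : Type} [Field F] [Fintype F] [DecidableEq F] [Field G] [Fintype G] [DecidableEq G]

theorem det_sq_eq (hF : ringChar F ≠ 2) (hG : ringChar G ≠ 2) (p q : ℕ) (hp : 2 ≤ p) (hq : 2 ≤ q)
    (hcF : Fintype.card F = p + 1) (hcG : Fintype.card G = q + 1) :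
    (M F G).det ^ 2 = (1 - X (-1 : F) * X (-1 : G) * (((p : ℝ) + 1) * (q + 1))) ^ (p * q) * ((q : ℝ) ^ 2) ^ p *
      ((p : ℝ) ^ 2) ^ q * ((p : ℝ) + q + 1) ^ 2 := by
  set ε : ℝ := X (-1 : F) * X (-1 : G) with hε
  have hε1 : ε = 1 ∨ ε = -1 := by
    rcases X_cases (-1 : F) (neg_ne_zero.2 one_ne_zero) with h3 | h3 <;>
      rcases X_cases (-1 : G) (neg_ne_zero.2 one_ne_zero) with h4 | h4 <;> simp [hε, h3, h4]
  have hp' : (2 : ℝ) ≤ p := by exact_mod_cast hp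
  have hq' : (2 : ℝ) ≤ q := by exact_mod_cast hq
  have hpq : (4 : ℝ) ≤ p * q := by nlinarith
  have hdet : (M F G).det ^ 2 = (M F G * (-W F G + (A1 F G + A2 F G - 1))).det := by
    rw [Matrix.det_mul, det_eq hF, sq]
  set a : ℝ := 1 - ε * ((Fintype.card F : ℝ) * Fintype.card G) with ha
  set b : ℝ := (Fintype.card G : ℝ) - 2 + ε * Fintype.card F with hb
  set c : ℝ := (Fintype.card F : ℝ) - 2 + ε * Fintype.card G with hc
  have hFr : (Fintype.card F : ℝ) = p + 1 := by rw [hcF]; push_cast; ring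
  have hGr : (Fintype.card G : ℝ) = q + 1 := by rw [hcG]; push_cast; ring
  have habs : ((p : ℝ) + 1) * (q + 1) - 1 ≤ |a| := by
    rw [ha, hFr, hGr]
    rcases hε1 with h | h
    · rw [h, one_mul, abs_sub_comm, abs_of_nonneg (by nlinarith)]
    · rw [h, abs_of_nonneg (by nlinarith)]
      nlinarith
  have ha0 : a ≠ 0 := by
    intro h
    rw [h, abs_zero] at habs
    nlinarith
  have hab : a + b * Fintype.card G = (q : ℝ) ^ 2 := by
    rw [ha, hb, hFr, hGr]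
    ring
  have hac : a + c * Fintype.card F = (p : ℝ) ^ 2 := by
    rw [ha, hc, hFr, hGr]
    ring
  have hq0 : (q : ℝ) ≠ 0 := by linarith
  have hp0 : (p : ℝ) ≠ 0 := by linarith
  have h1 := det_combo (F := F) (G := G) a b c (2 - ε) ha0 (by rw [hab]; positivity)
    (by rw [hac]; positivity)
  have h2 := mul_eq (F := F) (G := G) hF hG
  rw [← hε] at h2
  rw [hdet, h2]
  rw [h1]
  have e1 : 1 + b / a * Fintype.card G = (q : ℝ) ^ 2 / a := by
    rw [← hab]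
    field_simp
  have e2 : 1 + c / a * Fintype.card F = (p : ℝ) ^ 2 / a := by
    rw [← hac]
    field_simp
  have e3 : 1 + ((2 - ε) / a - b / a * (c / a)) / ((q : ℝ) ^ 2 / a * ((p : ℝ) ^ 2 / a)) *
      ((Fintype.card F : ℝ) * Fintype.card G) = ((p : ℝ) + q + 1) ^ 2 * a / ((p : ℝ) ^ 2 * (q : ℝ) ^ 2) := by
    have e4 : (p : ℝ) ^ 2 * (q : ℝ) ^ 2 + ((2 - ε) * a - b * c) * ((Fintype.card F : ℝ) * Fintype.card G)
        = ((p : ℝ) + q + 1) ^ 2 * a := by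
      rw [ha, hb, hc, hFr, hGr]
      ring
    rw [← e4]
    field_simp
    try ring
  rw [e1, e2, e3, hcF, hcG]
  have e5 : a ^ ((p + 1) * (q + 1)) * ((q : ℝ) ^ 2 / a) ^ (p + 1) * ((p : ℝ) ^ 2 / a) ^ (q + 1) *
      (((p : ℝ) + q + 1) ^ 2 * a / ((p : ℝ) ^ 2 * (q : ℝ) ^ 2)) =
      a ^ (p * q) * ((q : ℝ) ^ 2) ^ p * ((p : ℝ) ^ 2) ^ q * ((p : ℝ) + q + 1) ^ 2 := by
    rw [show (p + 1) * (q + 1) = p * q + p + q + 1 by ring, div_pow, div_pow, pow_add, pow_add, pow_add,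
      pow_one, pow_succ ((q : ℝ) ^ 2) p, pow_succ ((p : ℝ) ^ 2) q, pow_succ a p, pow_succ a q]
    field_simp
  rw [e5, ha, hFr, hGr]

theorem X_neg_one (hF : ringChar F ≠ 2) : X (-1 : F) = if Fintype.card F % 4 = 1 then 1 else -1 := by
  have h := quadraticChar_neg_one hF
  have h2 := FiniteField.odd_card_of_char_ne_two hF
  unfold X
  rw [h]
  split_ifs with h4
  · rw [ZMod.χ₄_nat_one_mod_four h4]
    norm_num
  · rw [ZMod.χ₄_nat_three_mod_four (by omega)]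
    norm_num

/-- the sign `1` if `a = b` modulo `4` and `-1` otherwise -/
def sgn (a b : ℕ) : ℝ := if a % 4 = b % 4 then 1 else -1

theorem maxDet_fields (hF : ringChar F ≠ 2) (hG : ringChar G ≠ 2) (p q : ℕ) (hp : 2 ≤ p) (hq : 2 ≤ q)
    (hcF : Fintype.card F = p + 1) (hcG : Fintype.card G = q + 1) :
    (((p : ℝ) + 1) * (q + 1) - sgn (p + 1) (q + 1)) ^ (p * q / 2) * (q : ℝ) ^ p * (p : ℝ) ^ q *
      ((p : ℝ) + q + 1) ≤ HadCalc.maxDet ((p + 1) * (q + 1)) := by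
  have oF := FiniteField.odd_card_of_char_ne_two hF
  have oG := FiniteField.odd_card_of_char_ne_two hG
  rw [hcF] at oF
  rw [hcG] at oG
  have hp' : (2 : ℝ) ≤ p := by exact_mod_cast hp
  have hq' : (2 : ℝ) ≤ q := by exact_mod_cast hq
  have hcard : Fintype.card (F × G) = (p + 1) * (q + 1) := by rw [Fintype.card_prod, hcF, hcG]
  let e : Fin ((p + 1) * (q + 1)) ≃ F × G := (Fintype.equivFinOfCardEq hcard).symm
  have hle : |(M F G).det| ≤ HadCalc.maxDet ((p + 1) * (q + 1)) := by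
    have h := HadCalc.le_maxDet ((M F G).submatrix e e) (fun i j => M_sign F G _ _)
    rwa [Matrix.det_submatrix_equiv_self] at h
  have h := det_sq_eq (F := F) (G := G) hF hG p q hp hq hcF hcG
  have hs : X (-1 : F) * X (-1 : G) = sgn (p + 1) (q + 1) := by
    rw [X_neg_one hF, X_neg_one hG, hcF, hcG]
    unfold sgn
    split_ifs <;> first | omega | norm_num
  rw [hs] at h
  set s : ℝ := sgn (p + 1) (q + 1) with hsdef
  have hs1 : s = 1 ∨ s = -1 := by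
    rw [hsdef]
    unfold sgn
    split_ifs
    · left; rfl
    · right; rfl
  have hpos : 0 ≤ ((p : ℝ) + 1) * (q + 1) - s := by
    rcases hs1 with h1 | h1 <;> rw [h1] <;> nlinarith
  have habs : (1 - s * (((p : ℝ) + 1) * (q + 1))) ^ 2 = (((p : ℝ) + 1) * (q + 1) - s) ^ 2 := by
    rcases hs1 with h1 | h1 <;> rw [h1] <;> ring
  obtain ⟨m, hm⟩ : ∃ m, p * q = 2 * m := by
    obtain ⟨r, hr⟩ : ∃ r, p = 2 * r := ⟨p / 2, by omega⟩
    exact ⟨r * q, by rw [hr]; ring⟩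
  refine le_trans ?_ hle
  rw [show p * q / 2 = m by omega]
  refine (pow_le_pow_iff_left₀ (by positivity) (abs_nonneg _) two_ne_zero).1 ?_
  rw [sq_abs, h, hm, pow_mul (1 - s * (((p : ℝ) + 1) * (q + 1))), habs]
  have e2 : ((((p : ℝ) + 1) * (q + 1) - s) ^ 2) ^ m = ((((p : ℝ) + 1) * (q + 1) - s) ^ m) ^ 2 := by
    rw [← pow_mul, ← pow_mul, mul_comm 2 m]
  rw [e2]
  generalize (((p : ℝ) + 1) * (q + 1) - s) ^ m = A
  refine le_of_eq ?_
  rw [← pow_mul, ← pow_mul]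
  ring

/-- The result for all pairs of odd prime powers. -/
theorem main_det (q₁ q₂ : ℕ) (h1 : IsPrimePow q₁) (h2 : IsPrimePow q₂) (o1 : Odd q₁) (o2 : Odd q₂) :
    ((q₁ : ℝ) * q₂ - sgn q₁ q₂) ^ ((q₁ - 1) * (q₂ - 1) / 2) * ((q₁ : ℝ) - 1) ^ (q₂ - 1) *
      ((q₂ : ℝ) - 1) ^ (q₁ - 1) * ((q₁ : ℝ) + q₂ - 1) ≤ HadCalc.maxDet (q₁ * q₂) := by
  classical
  obtain ⟨F, hF1, hF2, hF3, hF4⟩ := exists_field q₁ h1 o1
  obtain ⟨G, hG1, hG2, hG3, hG4⟩ := exists_field q₂ h2 o2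
  have h3 : 3 ≤ q₁ := by
    have := h1.one_lt
    obtain ⟨k, hk⟩ := o1
    omega
  have h4 : 3 ≤ q₂ := by
    have := h2.one_lt
    obtain ⟨k, hk⟩ := o2
    omega
  obtain ⟨p, rfl⟩ : ∃ p, q₁ = p + 1 := ⟨q₁ - 1, by omega⟩
  obtain ⟨q, rfl⟩ : ∃ q, q₂ = q + 1 := ⟨q₂ - 1, by omega⟩
  have h := maxDet_fields (F := F) (G := G) hF4 hG4 p q (by omega) (by omega) hF3 hG3
  refine le_trans (le_of_eq ?_) h
  simp only [Nat.add_sub_cancel]
  push_cast
  ring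

theorem rDet_add {n : ℕ} (hn : 0 < n) (k : ℕ) : HadCalc.rDet n * (1 / 5 : ℝ) ^ k ≤ HadCalc.rDet (n + k) := by
  induction k with
  | zero => simp
  | succ k ih =>
    have h := HadCalc.rDet_succ_ge (n := n + k) (by omega)
    rw [pow_succ, ← add_assoc]
    calc _ = (HadCalc.rDet n * (1 / 5 : ℝ) ^ k) / 5 := by ring
      _ ≤ HadCalc.rDet (n + k) / 5 := by gcongr
      _ ≤ _ := h

theorem main_mul (h : ℕ) (hh : 0 < h) (hH : HadCalc.HadOrder h) (q₁ q₂ k : ℕ) (h1 : IsPrimePow q₁)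
    (h2 : IsPrimePow q₂) (o1 : Odd q₁) (o2 : Odd q₂) (hle : q₁ ≤ q₂) :
    Real.exp (-(h * (3 + ((q₂ : ℝ) - q₁) ^ 2 / q₁))) * (1 / 5 : ℝ) ^ k ≤ HadCalc.rDet (q₁ * q₂ * h + k) := by
  have hq : 0 < q₁ * q₂ := Nat.mul_pos h1.pos h2.pos
  have e1 := main q₁ q₂ h1 h2 o1 o2 hle
  have e2 := HadLI.rDet_tensor (q₁ * q₂) h hq hh hH
  have e3 := (pow_le_pow_left₀ (Real.exp_pos _).le e1 h).trans e2
  have e4 := rDet_add (n := q₁ * q₂ * h) (Nat.mul_pos hq hh) k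
  refine le_trans ?_ e4
  refine mul_le_mul_of_nonneg_right ?_ (by positivity)
  refine le_trans (le_of_eq ?_) e3
  rw [← Real.exp_nat_mul]
  congr 1
  ring

end HadPP
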