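import Pool.Agent.Lib_MP_008adc_pp.Det

/-!
# The lower bound for `rDet (q₁ q₂)`
-/

set_option autoImplicit false

namespace HadPP

open Matrix Finset

theorem log_step (a : ℝ) (ha : 0 < a) : Real.log (a + 1) - Real.log a ≤ 1 / a := by
  rw [← Real.log_div (by positivity) ha.ne']
  have h := Real.log_le_sub_one_of_pos (show 0 < (a + 1) / a by positivity)
  have h2 : (a + 1) / a - 1 = 1 / a := by field_simp; ring
  linarith

/-- the logarithmic inequality -/
theorem key (p q : ℝ) (hp : 2 ≤ p) (hpq : p ≤ q) :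
    (p + 1) * (q + 1) * Real.log ((p + 1) * (q + 1)) - 2 * (3 + ((q + 1) - (p + 1)) ^ 2 / (p + 1)) ≤
      p * q * Real.log ((p + 1) * (q + 1) - 1) + 2 * p * Real.log q + 2 * q * Real.log p +
        2 * Real.log (p + q + 1) := by
  have hp0 : 0 < p := by linarith
  have hq0 : 0 < q := by linarith
  have hx : 0 < p + 1 := by linarith
  have hy : 0 < q + 1 := by linarith
  have hn1 : 0 < (p + 1) * (q + 1) - 1 := by nlinarith
  have h1 : p * q * (Real.log ((p + 1) * (q + 1)) - Real.log ((p + 1) * (q + 1) - 1)) ≤ 1 := by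
    have h := log_step _ hn1
    rw [sub_add_cancel] at h
    calc _ ≤ p * q * (1 / ((p + 1) * (q + 1) - 1)) :=
          mul_le_mul_of_nonneg_left h (by positivity)
      _ ≤ 1 := by
          rw [mul_one_div, div_le_one hn1]
          nlinarith
  have h2 : 2 * p * (Real.log (q + 1) - Real.log q) ≤ 2 := by
    have h := log_step _ hq0
    calc _ ≤ 2 * p * (1 / q) := mul_le_mul_of_nonneg_left h (by positivity)
      _ ≤ 2 := by
          rw [mul_one_div, div_le_iff₀ hq0]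
          linarith
  have h3 : 2 * q * (Real.log (p + 1) - Real.log p) ≤ 2 + 2 * ((q - p) / p) := by
    have h := log_step _ hp0
    calc _ ≤ 2 * q * (1 / p) := mul_le_mul_of_nonneg_left h (by positivity)
      _ = 2 + 2 * ((q - p) / p) := by
          field_simp
          ring
  have h4 : Real.log ((p + 1) * (q + 1)) ≤ 2 * Real.log (p + q + 1) := by
    have : 2 * Real.log (p + q + 1) = Real.log ((p + q + 1) ^ 2) := by
      rw [Real.log_pow]
      norm_num
    rw [this]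
    refine Real.log_le_log (by positivity) ?_
    nlinarith
  have h5 : (q - p) * (Real.log (q + 1) - Real.log (p + 1)) ≤ (q - p) ^ 2 / (p + 1) := by
    have h : Real.log (q + 1) - Real.log (p + 1) ≤ (q - p) / (p + 1) := by
      rw [← Real.log_div hy.ne' hx.ne']
      have h := Real.log_le_sub_one_of_pos (show 0 < (q + 1) / (p + 1) by positivity)
      have h2 : (q + 1) / (p + 1) - 1 = (q - p) / (p + 1) := by field_simp; ring
      linarith
    calc _ ≤ (q - p) * ((q - p) / (p + 1)) := mul_le_mul_of_nonneg_left h (by linarith)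
      _ = _ := by ring
  have h6 : Real.log ((p + 1) * (q + 1)) = Real.log (p + 1) + Real.log (q + 1) :=
    Real.log_mul hx.ne' hy.ne'
  have h7 : 2 * ((q - p) / p) ≤ 1 + (q - p) ^ 2 / (p + 1) := by
    have e1 : ((q - p) / p) ^ 2 ≤ (q - p) ^ 2 / (p + 1) := by
      rw [div_pow]
      exact div_le_div_of_nonneg_left (sq_nonneg _) hx (by nlinarith)
    nlinarith [sq_nonneg ((q - p) / p - 1)]
  have h8 : (q + 1) - (p + 1) = q - p := by ring
  rw [h8]
  rw [h6] at h1 h4 ⊢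
  have e : (p + 1) * (q + 1) * (Real.log (p + 1) + Real.log (q + 1)) =
      p * q * (Real.log (p + 1) + Real.log (q + 1)) + (Real.log (p + 1) + Real.log (q + 1)) +
        (p + q) * (Real.log (p + 1) + Real.log (q + 1)) := by ring
  rw [e]
  nlinarith [h1, h2, h3, h4, h5, h7]

variable {F G : Type} [Field F] [Fintype F] [DecidableEq F] [Field G] [Fintype G] [DecidableEq G]

theorem det_sq (hF : ringChar F ≠ 2) (hG : ringChar G ≠ 2) (p q : ℕ) (hp : 2 ≤ p) (hq : 2 ≤ q)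
    (hcF : Fintype.card F = p + 1) (hcG : Fintype.card G = q + 1) :
    ((((p : ℝ) + 1) * (q + 1) - 1) ^ (p * q)) * ((q : ℝ) ^ 2) ^ p * ((p : ℝ) ^ 2) ^ q * ((p : ℝ) + q + 1) ^ 2 ≤
      (M F G).det ^ 2 := by
  set ε : ℝ := X (-1 : F) * X (-1 : G) with hε
  have hε1 : ε = 1 ∨ ε = -1 := by
    rcases X_cases (-1 : F) (neg_ne_zero.2 one_ne_zero) with h3 | h3 <;>
      rcases X_cases (-1 : G) (neg_ne_zero.2 one_ne_zero) with h4 | h4 <;> simp [hε, h3, h4]
  have hp' : (2 : ℝ) ≤ p := by exact_mod_cast hp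
  have hq' : (2 : ℝ) ≤ q := by exact_mod_cast hq
  have hpq : (4 : ℝ) ≤ p * q := by nlinarith
  have hdet : (M F G).det ^ 2 = (M F G * (-W F G + (A1 F G + A2 F G - 1))).det := by
    rw [Matrix.det_mul, det_eq hF, sq]
  set a : ℝ := 1 - ε * ((Fintype.card F : ℝ) * Fintype.card G) with ha
  set b : ℝ := (Fintype.card G : ℝ) - 2 + ε * Fintype.card F with hb
  set c : ℝ := (Fintype.card F : ℝ) - 2 + ε * Fintype.card G with hc
  have hFr : (Fintype.card F : ℝ) = p + 1 := by rw [hcF]; push_cast; ring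
  have hGr : (Fintype.card G : ℝ) = q + 1 := by rw [hcG]; push_cast; ring
  have habs : ((p : ℝ) + 1) * (q + 1) - 1 ≤ |a| := by
    rw [ha, hFr, hGr]
    rcases hε1 with h | h
    · rw [h, one_mul, abs_sub_comm, abs_of_nonneg (by nlinarith)]
    · rw [h, abs_of_nonneg (by nlinarith)]
      nlinarith
  have ha0 : a ≠ 0 := by
    intro h
    rw [h, abs_zero] at habs
    nlinarith
  have hab : a + b * Fintype.card G = (q : ℝ) ^ 2 := by
    rw [ha, hb, hFr, hGr]
    ring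
  have hac : a + c * Fintype.card F = (p : ℝ) ^ 2 := by
    rw [ha, hc, hFr, hGr]
    ring
  have hq0 : (q : ℝ) ≠ 0 := by linarith
  have hp0 : (p : ℝ) ≠ 0 := by linarith
  have h1 := det_combo (F := F) (G := G) a b c (2 - ε) ha0 (by rw [hab]; positivity)
    (by rw [hac]; positivity)
  have h2 := mul_eq (F := F) (G := G) hF hG
  rw [← hε] at h2
  rw [hdet, h2]
  rw [h1]
  have e1 : 1 + b / a * Fintype.card G = (q : ℝ) ^ 2 / a := by
    rw [← hab]
    field_simp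
  have e2 : 1 + c / a * Fintype.card F = (p : ℝ) ^ 2 / a := by
    rw [← hac]
    field_simp
  have e3 : 1 + ((2 - ε) / a - b / a * (c / a)) / ((q : ℝ) ^ 2 / a * ((p : ℝ) ^ 2 / a)) *
      ((Fintype.card F : ℝ) * Fintype.card G) = ((p : ℝ) + q + 1) ^ 2 * a / ((p : ℝ) ^ 2 * (q : ℝ) ^ 2) := by
    have e4 : (p : ℝ) ^ 2 * (q : ℝ) ^ 2 + ((2 - ε) * a - b * c) * ((Fintype.card F : ℝ) * Fintype.card G)
        = ((p : ℝ) + q + 1) ^ 2 * a := by
      rw [ha, hb, hc, hFr, hGr]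
      ring
    rw [← e4]
    field_simp
    try ring
  rw [e1, e2, e3, hcF, hcG]
  have e5 : a ^ ((p + 1) * (q + 1)) * ((q : ℝ) ^ 2 / a) ^ (p + 1) * ((p : ℝ) ^ 2 / a) ^ (q + 1) *
      (((p : ℝ) + q + 1) ^ 2 * a / ((p : ℝ) ^ 2 * (q : ℝ) ^ 2)) =
      a ^ (p * q) * ((q : ℝ) ^ 2) ^ p * ((p : ℝ) ^ 2) ^ q * ((p : ℝ) + q + 1) ^ 2 := by
    rw [show (p + 1) * (q + 1) = p * q + p + q + 1 by ring, div_pow, div_pow, pow_add, pow_add, pow_add,
      pow_one, pow_succ ((q : ℝ) ^ 2) p, pow_succ ((p : ℝ) ^ 2) q, pow_succ a p, pow_succ a q]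
    field_simp
  rw [e5]
  have h9 : (M F G).det ^ 2 = a ^ (p * q) * ((q : ℝ) ^ 2) ^ p * ((p : ℝ) ^ 2) ^ q * ((p : ℝ) + q + 1) ^ 2 := by
    rw [hdet, h2, h1, e1, e2, e3, hcF, hcG, e5]
  have h10 : 0 ≤ a ^ (p * q) * ((q : ℝ) ^ 2) ^ p * ((p : ℝ) ^ 2) ^ q * ((p : ℝ) + q + 1) ^ 2 := by
    rw [← h9]
    positivity
  rw [← abs_of_nonneg h10, abs_mul, abs_mul, abs_mul, abs_pow]
  rw [abs_of_nonneg (show (0 : ℝ) ≤ ((q : ℝ) ^ 2) ^ p by positivity),
    abs_of_nonneg (show (0 : ℝ) ≤ ((p : ℝ) ^ 2) ^ q by positivity),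
    abs_of_nonneg (show (0 : ℝ) ≤ ((p : ℝ) + q + 1) ^ 2 by positivity)]
  have h11 : (((p : ℝ) + 1) * (q + 1) - 1) ^ (p * q) ≤ |a| ^ (p * q) :=
    pow_le_pow_left₀ (by nlinarith) habs _
  gcongr

theorem rDet_fields (hF : ringChar F ≠ 2) (hG : ringChar G ≠ 2) (p q : ℕ) (hp : 2 ≤ p) (hpq : p ≤ q)
    (hcF : Fintype.card F = p + 1) (hcG : Fintype.card G = q + 1) :
    Real.exp (-(3 + (((q + 1 : ℕ) : ℝ) - (p + 1 : ℕ)) ^ 2 / (p + 1 : ℕ))) ≤
      HadCalc.rDet ((p + 1) * (q + 1)) := by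
  have hp' : (2 : ℝ) ≤ p := by exact_mod_cast hp
  have hpq' : (p : ℝ) ≤ q := by exact_mod_cast hpq
  have hp0 : (0 : ℝ) < p := by linarith
  have hq0 : (0 : ℝ) < q := by linarith
  have hcard : Fintype.card (F × G) = (p + 1) * (q + 1) := by rw [Fintype.card_prod, hcF, hcG]
  let e : Fin ((p + 1) * (q + 1)) ≃ F × G := (Fintype.equivFinOfCardEq hcard).symm
  have hle : |(M F G).det| ≤ HadCalc.maxDet ((p + 1) * (q + 1)) := by
    have h := HadCalc.le_maxDet ((M F G).submatrix e e) (fun i j => M_sign F G _ _)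
    rwa [Matrix.det_submatrix_equiv_self] at h
  have hsq := det_sq (F := F) (G := G) hF hG p q hp (hp.trans hpq) hcF hcG
  set N : ℝ := ((p : ℝ) + 1) * (q + 1) with hN
  have hNpos : 0 < N := by positivity
  have hNcast : (((p + 1) * (q + 1) : ℕ) : ℝ) = N := by push_cast; rfl
  set E : ℝ := 3 + (((q : ℝ) + 1) - (p + 1)) ^ 2 / (p + 1) with hE
  have hk := key p q hp' hpq'
  rw [← hN, ← hE] at hk
  have hn1 : 0 < N - 1 := by rw [hN]; nlinarith
  have hR : Real.log ((N - 1) ^ (p * q) * ((q : ℝ) ^ 2) ^ p * ((p : ℝ) ^ 2) ^ q *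
      ((p : ℝ) + q + 1) ^ 2) = (p : ℝ) * q * Real.log (N - 1) + p * (2 * Real.log q) + q * (2 * Real.log p) +
        2 * Real.log ((p : ℝ) + q + 1) := by
    have e1 : (N - 1) ^ (p * q) ≠ 0 := (pow_pos hn1 _).ne'
    have e2 : ((q : ℝ) ^ 2) ^ p ≠ 0 := by positivity
    have e3 : ((p : ℝ) ^ 2) ^ q ≠ 0 := by positivity
    have e4 : ((p : ℝ) + q + 1) ^ 2 ≠ 0 := by positivity
    rw [Real.log_mul (mul_ne_zero (mul_ne_zero e1 e2) e3) e4, Real.log_mul (mul_ne_zero e1 e2) e3,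
      Real.log_mul e1 e2]
    simp only [Real.log_pow]
    push_cast
    ring
  have hlog : N * Real.log N - 2 * E ≤ Real.log ((N - 1) ^ (p * q) * ((q : ℝ) ^ 2) ^ p * ((p : ℝ) ^ 2) ^ q *
      ((p : ℝ) + q + 1) ^ 2) := by
    rw [hR]
    linarith
  have h1 : Real.exp (N * Real.log N - 2 * E) ≤ (M F G).det ^ 2 := by
    refine le_trans ?_ hsq
    rw [← Real.le_log_iff_exp_le (by positivity)]
    exact hlog
  have h2 : Real.exp (N * Real.log N / 2 - E) ≤ |(M F G).det| := by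
    have h3 : Real.exp (N * Real.log N / 2 - E) ^ 2 ≤ |(M F G).det| ^ 2 := by
      rw [sq_abs, ← Real.exp_nat_mul]
      refine le_trans (le_of_eq ?_) h1
      congr 1
      push_cast
      ring
    exact (pow_le_pow_iff_left₀ (Real.exp_pos _).le (abs_nonneg _) two_ne_zero).1 h3
  unfold HadCalc.rDet
  rw [hNcast, le_div_iff₀ (Real.rpow_pos_of_pos hNpos _), Real.rpow_def_of_pos hNpos, ← Real.exp_add]
  refine le_trans (le_of_eq ?_) (h2.trans hle)
  congr 1
  rw [hE]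
  push_cast
  ring

theorem exists_field (q : ℕ) (h : IsPrimePow q) (ho : Odd q) :
    ∃ (F : Type) (_ : Field F) (_ : Fintype F), Fintype.card F = q ∧ ringChar F ≠ 2 := by
  obtain ⟨p, k, hp, hk, rfl⟩ := (isPrimePow_nat_iff _).1 h
  haveI : Fact p.Prime := ⟨hp⟩
  haveI : Fintype (GaloisField p k) := Fintype.ofFinite _
  have hc : Fintype.card (GaloisField p k) = p ^ k := by
    rw [← Nat.card_eq_fintype_card, GaloisField.card p k (by omega)]
  refine ⟨GaloisField p k, inferInstance, inferInstance, hc, fun h2 => ?_⟩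
  have := FiniteField.even_card_of_char_two h2
  rw [hc] at this
  rw [Nat.odd_iff] at ho
  omega

theorem main (q₁ q₂ : ℕ) (h1 : IsPrimePow q₁) (h2 : IsPrimePow q₂) (o1 : Odd q₁) (o2 : Odd q₂)
    (hle : q₁ ≤ q₂) :
    Real.exp (-(3 + ((q₂ : ℝ) - q₁) ^ 2 / q₁)) ≤ HadCalc.rDet (q₁ * q₂) := by
  classical
  obtain ⟨F, hF1, hF2, hF3, hF4⟩ := exists_field q₁ h1 o1
  obtain ⟨G, hG1, hG2, hG3, hG4⟩ := exists_field q₂ h2 o2
  have h3 : 3 ≤ q₁ := by
    have := h1.one_lt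
    obtain ⟨k, hk⟩ := o1
    omega
  obtain ⟨p, rfl⟩ : ∃ p, q₁ = p + 1 := ⟨q₁ - 1, by omega⟩
  obtain ⟨q, rfl⟩ : ∃ q, q₂ = q + 1 := ⟨q₂ - 1, by omega⟩
  exact rDet_fields (F := F) (G := G) hF4 hG4 p q (by omega) (by omega) hF3 hG3

end HadPP
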