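import Mathlib

/-!
# MP_008adc_co: the analytic end of the bound for products of two prime powers
-/

set_option autoImplicit false

namespace HadCalc.PP26

open Real

theorem log_pred {x : ℝ} (hx : 1 < x) : log x - 1 / (x - 1) ≤ log (x - 1) := by
  have h0 : 0 < x - 1 := by linarith
  have h1 : 0 < x / (x - 1) := by positivity
  have h2 : log (x / (x - 1)) ≤ x / (x - 1) - 1 := log_le_sub_one_of_pos h1
  rw [log_div (by linarith) h0.ne'] at h2
  have h3 : x / (x - 1) - 1 = 1 / (x - 1) := by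
    field_simp
    ring
  linarith

/-- the inequality -/
theorem log_ineq (a b : ℝ) (ha : 3 ≤ a) (hab : a ≤ b) :
    -3 - (b - a) ^ 2 / a ≤ (a - 1) * (b - 1) / 2 * log (a * b - 1) + (b - 1) * log (a - 1) +
      (a - 1) * log (b - 1) + log (a + b - 1) - a * b / 2 * log (a * b) := by
  have ha0 : 0 < a := by linarith
  have hb0 : 0 < b := by linarith
  have hab9 : 9 ≤ a * b := by nlinarith
  have hlog : log (a * b) = log a + log b := log_mul ha0.ne' hb0.ne'
  -- the first factor
  have h1 : (a - 1) * (b - 1) / 2 * log (a * b) - 1 / 2 ≤ (a - 1) * (b - 1) / 2 * log (a * b - 1) := by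
    have e1 := log_pred (x := a * b) (by linarith)
    have e2 : 0 ≤ (a - 1) * (b - 1) / 2 := by
      have : 0 ≤ (a - 1) * (b - 1) := mul_nonneg (by linarith) (by linarith)
      linarith
    have e3 := mul_le_mul_of_nonneg_left e1 e2
    have e4 : (a - 1) * (b - 1) / 2 * (1 / (a * b - 1)) ≤ 1 / 2 := by
      rw [mul_one_div, div_le_iff₀ (by linarith)]
      nlinarith
    rw [mul_sub] at e3
    linarith
  -- the second factor
  have h2 : (b - 1) * log a - (b - 1) / (a - 1) ≤ (b - 1) * log (a - 1) := by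
    have e1 := mul_le_mul_of_nonneg_left (log_pred (x := a) (by linarith)) (by linarith : 0 ≤ b - 1)
    rw [mul_sub, mul_one_div] at e1
    exact e1
  -- the third factor
  have h3 : (a - 1) * log b - 1 ≤ (a - 1) * log (b - 1) := by
    have e1 := mul_le_mul_of_nonneg_left (log_pred (x := b) (by linarith)) (by linarith : 0 ≤ a - 1)
    rw [mul_sub, mul_one_div] at e1
    have e2 : (a - 1) / (b - 1) ≤ 1 := by
      rw [div_le_one (by linarith)]
      linarith
    linarith
  -- the fourth factor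
  have h4 : log (a * b) / 2 ≤ log (a + b - 1) := by
    have e1 : a * b ≤ (a + b - 1) ^ 2 := by nlinarith
    have e2 := log_le_log (by linarith) e1
    rw [log_pow] at e2
    push_cast at e2
    linarith
  -- the difference
  have h5 : (b - a) / 2 * (log b - log a) ≤ (b - a) ^ 2 / (2 * a) := by
    have e1 : log (b / a) ≤ b / a - 1 := log_le_sub_one_of_pos (by positivity)
    rw [log_div hb0.ne' ha0.ne'] at e1
    have e2 := mul_le_mul_of_nonneg_left e1 (by linarith : 0 ≤ (b - a) / 2)
    have e3 : (b - a) / 2 * (b / a - 1) = (b - a) ^ 2 / (2 * a) := by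
      field_simp
    linarith
  have h6 : (b - 1) / (a - 1) ≤ 1 + (b - a) ^ 2 / (2 * a) + 3 / 8 := by
    have e0 : a - 1 ≠ 0 := by linarith
    have e1 : (b - 1) / (a - 1) = 1 + (b - a) / (a - 1) := by
      rw [eq_comm, ← eq_sub_iff_add_eq', div_eq_iff e0, sub_mul, div_mul_cancel₀ _ e0]
      ring
    have e2 : (b - a) / (a - 1) ≤ (b - a) ^ 2 / (2 * a) + 3 / 8 := by
      have e3 : (b - a) / (a - 1) ≤ 3 / 2 * ((b - a) / a) := by
        rw [mul_div_assoc', div_le_div_iff₀ (by linarith) ha0]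
        nlinarith
      have e4 : (b - a) ^ 2 / (2 * a) = a / 2 * ((b - a) / a) ^ 2 := by
        field_simp
      have e5 : 0 ≤ (b - a) / a := div_nonneg (by linarith) ha0.le
      rw [e4]
      set u := (b - a) / a with hu
      nlinarith [sq_nonneg (u - 1 / 2), mul_nonneg (by linarith : 0 ≤ a - 3) (sq_nonneg u)]
    linarith
  have h7 : (b - a) ^ 2 / a = (b - a) ^ 2 / (2 * a) + (b - a) ^ 2 / (2 * a) := by
    field_simp
    ring
  rw [h7]
  rw [hlog] at h1 h4 ⊢
  nlinarith [h1, h2, h3, h4, h5, h6]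

/-- the exponential form -/
theorem exp_ineq (a b : ℝ) (ha : 3 ≤ a) (hab : a ≤ b) :
    exp (-3 - (b - a) ^ 2 / a) * (a * b) ^ (a * b / 2) ≤
      (a * b - 1) ^ ((a - 1) * (b - 1) / 2) * (a - 1) ^ (b - 1) * (b - 1) ^ (a - 1) * (a + b - 1) := by
  have ha0 : 0 < a := by linarith
  have hb0 : 0 < b := by linarith
  have hab9 : 9 ≤ a * b := by nlinarith
  have p1 : 0 < a * b - 1 := by linarith
  have p2 : 0 < a - 1 := by linarith
  have p3 : 0 < b - 1 := by linarith
  have p4 : 0 < a + b - 1 := by linarith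
  have p5 : 0 < a * b := by linarith
  have h := log_ineq a b ha hab
  have q1 : 0 < (a * b - 1) ^ ((a - 1) * (b - 1) / 2) := rpow_pos_of_pos p1 _
  have q2 : 0 < (a - 1) ^ (b - 1) := rpow_pos_of_pos p2 _
  have q3 : 0 < (b - 1) ^ (a - 1) := rpow_pos_of_pos p3 _
  have q5 : 0 < (a * b) ^ (a * b / 2) := rpow_pos_of_pos p5 _
  have r1 : log (exp (-3 - (b - a) ^ 2 / a) * (a * b) ^ (a * b / 2)) =
      -3 - (b - a) ^ 2 / a + a * b / 2 * log (a * b) := by
    rw [log_mul (exp_pos _).ne' q5.ne', log_exp, log_rpow p5]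
  have r2 : log ((a * b - 1) ^ ((a - 1) * (b - 1) / 2) * (a - 1) ^ (b - 1) * (b - 1) ^ (a - 1) *
      (a + b - 1)) = (a - 1) * (b - 1) / 2 * log (a * b - 1) + (b - 1) * log (a - 1) +
      (a - 1) * log (b - 1) + log (a + b - 1) := by
    rw [log_mul (mul_pos (mul_pos q1 q2) q3).ne' p4.ne', log_mul (mul_pos q1 q2).ne' q3.ne',
      log_mul q1.ne' q2.ne', log_rpow p1, log_rpow p2, log_rpow p3]
  rw [← log_le_log_iff (mul_pos (exp_pos _) q5) (mul_pos (mul_pos (mul_pos q1 q2) q3) p4), r1, r2]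
  linarith

end HadCalc.PP26
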